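import Pool.Agent.H948.Doubling
import Pool.Agent.H948.OneFifth

/-!
# First-passage percolation: the fluctuation exponent is at least one fifth
-/

set_option autoImplicit false

open MeasureTheory ProbabilityTheory Filter
open scoped Pointwise

namespace Pool.Agent.Results.MP_de94ef_pr.OneFifth

/-- The passage time from the origin to `v` for the edge weights `w`. -/
noncomputable def PassageTime (w : Sym2 (ℤ × ℤ) → ℝ) (v : ℤ × ℤ) : ℝ :=
  sInf {s : ℝ | ∃ n : ℕ, ∃ p : ℕ → ℤ × ℤ, p 0 = 0 ∧ p n = v ∧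
    (∀ i < n, |(p (i + 1)).1 - (p i).1| + |(p (i + 1)).2 - (p i).2| = 1) ∧
    s = ∑ i ∈ Finset.range n, w s(p i, p (i + 1))}

/-- The weights `X e` are independent exponential variables with parameter 1, and `μ` is the time
constant: a continuous function, homogeneous of degree 1, with `T(0, n z) / n → μ z` a.s. -/
structure Model {Ω : Type} [MeasurableSpace Ω] (P : Measure Ω) (X : Sym2 (ℤ × ℤ) → Ω → ℝ)
    (μ : ℝ × ℝ → ℝ) : Prop where
  measurable : ∀ e, Measurable (X e)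
  independent : iIndepFun X P
  exponential : ∀ e, Measure.map (X e) P = expMeasure 1
  homogeneous : ∀ (x : ℝ × ℝ) (c : ℝ), 0 ≤ c → μ (c • x) = c * μ x
  continuous : Continuous μ
  limit : ∀ z : ℤ × ℤ, ∀ᵐ ω ∂P,
    Tendsto (fun n : ℕ => PassageTime (fun e => X e ω) ((n : ℤ) • z) / (n : ℝ)) atTop
      (nhds (μ ((z.1 : ℝ), (z.2 : ℝ))))

/-- The norm `|v₁| + |v₂|` of a lattice point. -/
noncomputable def size (v : ℤ × ℤ) : ℝ := |(v.1 : ℝ)| + |(v.2 : ℝ)|

/-- The fattened cluster at time `t`. -/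
def Cluster (w : Sym2 (ℤ × ℤ) → ℝ) (t : ℝ) : Set (ℝ × ℝ) :=
  {x : ℝ × ℝ | ∃ v : ℤ × ℤ, PassageTime w v ≤ t ∧
    |x.1 - (v.1 : ℝ)| ≤ 1 / 2 ∧ |x.2 - (v.2 : ℝ)| ≤ 1 / 2}

section

variable {Ω : Type} [MeasurableSpace Ω] (P : Measure Ω) (X : Sym2 (ℤ × ℤ) → Ω → ℝ)
  (μ : ℝ × ℝ → ℝ)

/-- The expected passage time from the origin to `v`. -/
noncomputable def mean (v : ℤ × ℤ) : ℝ := ∫ ω, PassageTime (fun e => X e ω) v ∂P

/-- The probability that the cluster at time `t` misses a part of `(1 - t ^ (a - 1)) t 𝔸`, where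
`𝔸 = {μ ≤ 1}` (the question has `a = 1 / 3 + ζ`). -/
noncomputable def missing (a t : ℝ) : ℝ :=
  (P {ω | ¬ (((1 - t ^ (a - 1)) * t) • {x : ℝ × ℝ | μ x ≤ 1} ⊆
    Cluster (fun e => X e ω) t)}).toReal

end

open Pool.Agent.H948 Q70.Fp
open Q69.FM (hm)

lemma passage_eq (w : Sym2 (ℤ × ℤ) → ℝ) (v : ℤ × ℤ) : PassageTime w v = TT w 0 v := by
  unfold PassageTime TT
  congr 1
  ext s
  constructor
  · rintro ⟨n, p, h1, h2, h3, h4⟩
    exact ⟨n, p, ⟨h1, h2, h3⟩, h4⟩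
  · rintro ⟨n, p, ⟨h1, h2, h3⟩, h4⟩
    exact ⟨n, p, h1, h2, h3, h4⟩

lemma size_eq (v : ℤ × ℤ) : size v = (dd 0 v : ℝ) := by
  simp only [size, dd, Prod.fst_zero, Prod.snd_zero, sub_zero]
  push_cast [Nat.cast_natAbs]
  rfl

/-- For independent exponential edge weights on the square lattice: (1) for `0 < a < 1 / 5` the
probability that the cluster at time `t` misses a part of `(1 - t ^ (a - 1)) t 𝔸` is not `O(t ^ (-q))`
for any `q > 0`; (2) `E T(0, v) - μ(v)` is not bounded by a multiple of `|v| ^ a` for any `a < 1 / 5`;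
(3) neither is `2 E T(0, v) - E T(0, 2 v)`; (4) if `E T(0, v) - μ(v) = O(|v| ^ (b + ζ))` for all
`ζ > 0`, with `0 < b < 1 / 2`, then at every large scale `n` some `T(0, v)` has variance at least
`n ^ ((1 - b) / 2 - ζ)`. -/
theorem result {Ω : Type} [MeasurableSpace Ω] (P : Measure Ω) [IsProbabilityMeasure P]
    (X : Sym2 (ℤ × ℤ) → Ω → ℝ) (μ : ℝ × ℝ → ℝ) (hM : Model P X μ) :
    (∀ a : ℝ, 0 < a → a < 1 / 5 → ∀ q : ℝ, 0 < q →
      ¬ Asymptotics.IsBigO atTop (fun t : ℝ => missing P X μ a t) (fun t : ℝ => t ^ (-q))) ∧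
    (∀ a : ℝ, a < 1 / 5 → ∀ C : ℝ, ∃ v : ℤ × ℤ, v ≠ 0 ∧
      μ ((v.1 : ℝ), (v.2 : ℝ)) + C * size v ^ a < mean P X v) ∧
    (∀ a : ℝ, a < 1 / 5 → ∀ C : ℝ, ∃ v : ℤ × ℤ, v ≠ 0 ∧
      C * size v ^ a < 2 * mean P X v - mean P X ((2 : ℤ) • v)) ∧
    (∀ b : ℝ, 0 < b → b < 1 / 2 →
      (∀ ζ : ℝ, 0 < ζ → ∃ C : ℝ, ∀ v : ℤ × ℤ, v ≠ 0 →
        mean P X v ≤ μ ((v.1 : ℝ), (v.2 : ℝ)) + C * size v ^ (b + ζ)) →
      ∀ ζ : ℝ, 0 < ζ → ∀ᶠ n : ℕ in atTop, ∃ v : ℤ × ℤ, (n : ℝ) / 2 ≤ size v ∧ size v ≤ 2 * n ∧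
        (n : ℝ) ^ ((1 - b) / 2 - ζ) ≤ variance (fun ω => PassageTime (fun e => X e ω) v) P) := by
  have hW : Wts P X := ⟨hM.measurable, hM.independent, hM.exponential⟩
  have hS : Shape μ := hW.shape hM.homogeneous hM.continuous (by
    intro z
    filter_upwards [hM.limit z] with ω hω
    simpa only [passage_eq] using hω)
  have emean : ∀ v, mean P X v = hm v := by
    intro v
    unfold mean
    simp only [passage_eq]
    exact hW.int v (g := fun x => x) measurable_id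
  have einn : ∀ c t : ℝ, {ω | ¬ (c • {x : ℝ × ℝ | μ x ≤ 1} ⊆
      Cluster (fun e => X e ω) t)} = Fl X μ c t := by
    intro c t
    unfold Fl Cluster
    simp only [passage_eq]
  -- bounds with an exponent below `1 / 5` are bounds of the form needed
  have hup : ∀ (a : ℝ) (C : ℝ) (v : ℤ × ℤ), v ≠ 0 → ∀ ζ : ℝ, 0 < ζ →
      C * (dd 0 v : ℝ) ^ a ≤ max C 0 * (dd 0 v : ℝ) ^ (max a (1 / 10) + ζ) := by
    intro a C v hv ζ hζ
    have h1 : (1:ℝ) ≤ dd 0 v := by exact_mod_cast dd_pos hv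
    have h2 : (dd 0 v : ℝ) ^ a ≤ (dd 0 v : ℝ) ^ (max a (1 / 10) + ζ) :=
      Real.rpow_le_rpow_of_exponent_le h1 (by linarith [le_max_left a (1 / 10)])
    have h3 : 0 ≤ (dd 0 v : ℝ) ^ a := by positivity
    calc C * (dd 0 v : ℝ) ^ a ≤ max C 0 * (dd 0 v : ℝ) ^ a := by
          gcongr; exact le_max_left _ _
      _ ≤ _ := by gcongr
  have hmax0 : ∀ a : ℝ, 0 < max a (1 / 10) := fun a => lt_max_of_lt_right (by norm_num)
  have hmax5 : ∀ a : ℝ, a < 1 / 5 → max a (1 / 10) < 1 / 5 := fun a ha =>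
    max_lt ha (by norm_num)
  refine ⟨?_, ?_, ?_, ?_⟩
  · intro a ha ha5 q hq hO
    have hO' : Asymptotics.IsBigO atTop
        (fun t : ℝ => (P (Fl X μ ((1 - t ^ (a - 1)) * t) t)).toReal) (fun t : ℝ => t ^ (-q)) := by
      refine hO.congr_left fun t => ?_
      unfold missing
      rw [einn]
    refine one_fifth hS ha ha5 fun a' ha' => ?_
    refine boost hS ha (by linarith) (tl_of_inner hW hS ha (by linarith) fun ζ hζ hζ1 =>
      ⟨q, hq, ?_⟩) ha'
    refine Asymptotics.IsBigO.trans ?_ hO'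
    refine Asymptotics.IsBigO.of_bound 1 ?_
    filter_upwards [eventually_gt_atTop 1] with t ht
    rw [one_mul, Real.norm_of_nonneg ENNReal.toReal_nonneg,
      Real.norm_of_nonneg ENNReal.toReal_nonneg]
    refine ENNReal.toReal_mono (measure_ne_top P _) (measure_mono ?_)
    intro ω hω hsub
    refine hω (Set.Subset.trans ?_ hsub)
    rintro _ ⟨x, hx, rfl⟩
    have t0 : 0 < t := by linarith
    have t1 : t ^ (a - 1 + ζ) ≤ 1 := Real.rpow_le_one_of_one_le_of_nonpos ht.le (by linarith)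
    have t2 : t ^ (a - 1) ≤ t ^ (a - 1 + ζ) :=
      Real.rpow_le_rpow_of_exponent_le ht.le (by linarith)
    have t3 : t ^ (a - 1) < 1 := Real.rpow_lt_one_of_one_lt_of_neg ht (by linarith)
    have c0 : 0 < (1 - t ^ (a - 1)) * t := mul_pos (by linarith) t0
    have c1 : 0 ≤ (1 - t ^ (a - 1 + ζ)) * t := mul_nonneg (by linarith) t0.le
    have c2 : (1 - t ^ (a - 1 + ζ)) * t ≤ (1 - t ^ (a - 1)) * t := by gcongr
    refine ⟨(((1 - t ^ (a - 1 + ζ)) * t) / ((1 - t ^ (a - 1)) * t)) • x, ?_, ?_⟩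
    · show μ _ ≤ 1
      rw [hS.hom _ _ (by positivity)]
      have d1 : ((1 - t ^ (a - 1 + ζ)) * t) / ((1 - t ^ (a - 1)) * t) ≤ 1 := by
        rw [div_le_one c0]; exact c2
      have d2 : μ x ≤ 1 := hx
      have d3 := mu_nonneg hS x
      exact mul_le_one₀ d1 d3 d2
    · show ((1 - t ^ (a - 1)) * t) • (((1 - t ^ (a - 1 + ζ)) * t) / ((1 - t ^ (a - 1)) * t)) • x =
        ((1 - t ^ (a - 1 + ζ)) * t) • x
      rw [smul_smul, mul_div_cancel₀ _ c0.ne']
  · intro a ha C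
    by_contra hcon
    push Not at hcon
    refine one_fifth hS (hmax0 a) (hmax5 a ha) fun a' ha' => ?_
    refine mean_to_inner hS (hmax0 a) (fun ζ hζ => ⟨max C 0, fun v hv => ?_⟩) ha'
    have h1 := hcon v hv
    rw [emean, size_eq] at h1
    have h2 := hup a C v hv ζ hζ
    have h3 : μ ((v.1 : ℝ), (v.2 : ℝ)) = mz μ v := rfl
    rw [h3] at h1
    exact h1.trans (by linarith)
  · intro a ha C
    by_contra hcon
    push Not at hcon
    have hD := mean_of_doubling hS (hmax0 a) (by linarith [hmax5 a ha])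
      (fun ζ hζ => ⟨max C 0, fun v hv => by
        have h1 := hcon v hv
        rw [emean, emean, size_eq] at h1
        exact h1.trans (hup a C v hv ζ hζ)⟩)
    exact one_fifth hS (hmax0 a) (hmax5 a ha) fun a' ha' => mean_to_inner hS (hmax0 a) hD ha'
  · intro b hb hb2 hB ζ hζ
    have hB' : ∀ ζ : ℝ, 0 < ζ → ∃ C : ℝ, ∀ v : ℤ × ℤ, v ≠ 0 →
        hm v ≤ mz μ v + C * (dd 0 v : ℝ) ^ (b + ζ) := by
      intro ζ hζ
      obtain ⟨C, hC⟩ := hB ζ hζ
      refine ⟨C, fun v hv => ?_⟩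
      have h1 := hC v hv
      rw [emean, size_eq] at h1
      exact h1
    filter_upwards [var_TT hS hb hb2 (fun a ha => mean_to_inner hS hb hB' ha) hζ,
      eventually_ge_atTop 4] with n ⟨v, h1, h2, h3⟩ hn
    have hn4 : (4:ℝ) ≤ n := by exact_mod_cast hn
    refine ⟨v, ?_, ?_, ?_⟩
    · rw [size_eq]; linarith
    · rw [size_eq]; linarith
    · simp only [passage_eq]
      rw [hW.var v, variance_eq_integral (measurable_TT _ _).aemeasurable]
      exact h3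

end Pool.Agent.Results.MP_de94ef_pr.OneFifth
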