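import Pool.Agent.H948.LowTilt

/-!
# First-passage percolation: deviations below the time constant

The exponent in the first half of the question is at least `1 / 5`.
-/

set_option autoImplicit false

open MeasureTheory ProbabilityTheory Filter
open scoped Pointwise

namespace Pool.Agent.Results.MP_de94ef_pr.OuterOneFifth

/-- The passage time from the origin to `v` for the edge weights `w`. -/
noncomputable def PassageTime (w : Sym2 (ℤ × ℤ) → ℝ) (v : ℤ × ℤ) : ℝ :=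
  sInf {s : ℝ | ∃ n : ℕ, ∃ p : ℕ → ℤ × ℤ, p 0 = 0 ∧ p n = v ∧
    (∀ i < n, |(p (i + 1)).1 - (p i).1| + |(p (i + 1)).2 - (p i).2| = 1) ∧
    s = ∑ i ∈ Finset.range n, w s(p i, p (i + 1))}

/-- The weights `X e` are independent exponential variables with parameter 1, and `μ` is the time
constant: a continuous function, homogeneous of degree 1, with `T(0, n z) / n → μ z` a.s. -/
structure Model {Ω : Type} [MeasurableSpace Ω] (P : Measure Ω) (X : Sym2 (ℤ × ℤ) → Ω → ℝ)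
    (μ : ℝ × ℝ → ℝ) : Prop where
  measurable : ∀ e, Measurable (X e)
  independent : iIndepFun X P
  exponential : ∀ e, Measure.map (X e) P = expMeasure 1
  homogeneous : ∀ (x : ℝ × ℝ) (c : ℝ), 0 ≤ c → μ (c • x) = c * μ x
  continuous : Continuous μ
  limit : ∀ z : ℤ × ℤ, ∀ᵐ ω ∂P,
    Tendsto (fun n : ℕ => PassageTime (fun e => X e ω) ((n : ℤ) • z) / (n : ℝ)) atTop
      (nhds (μ ((z.1 : ℝ), (z.2 : ℝ))))

/-- The norm `|v₁| + |v₂|` of a lattice point. -/
noncomputable def size (v : ℤ × ℤ) : ℝ := |(v.1 : ℝ)| + |(v.2 : ℝ)|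

/-- The time constant of a lattice point. -/
noncomputable def mu (μ : ℝ × ℝ → ℝ) (v : ℤ × ℤ) : ℝ := μ ((v.1 : ℝ), (v.2 : ℝ))

/-- The fattened cluster at time `t`. -/
def Cluster (w : Sym2 (ℤ × ℤ) → ℝ) (t : ℝ) : Set (ℝ × ℝ) :=
  {x : ℝ × ℝ | ∃ v : ℤ × ℤ, PassageTime w v ≤ t ∧
    |x.1 - (v.1 : ℝ)| ≤ 1 / 2 ∧ |x.2 - (v.2 : ℝ)| ≤ 1 / 2}

section

variable {Ω : Type} [MeasurableSpace Ω] (P : Measure Ω) (X : Sym2 (ℤ × ℤ) → Ω → ℝ)
  (μ : ℝ × ℝ → ℝ)

/-- The probability that the fattened cluster is not contained in `(1 + r) t 𝔸`. -/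
noncomputable def leaveProb (r t : ℝ) : ℝ :=
  P.real {ω | ¬ (Cluster (fun e => X e ω) t ⊆ ((1 + r) * t) • {x : ℝ × ℝ | μ x ≤ 1})}

/-- The probability that `T(0, v) < s`. -/
noncomputable def fast (v : ℤ × ℤ) (s : ℝ) : ℝ :=
  P.real {ω | PassageTime (fun e => X e ω) v < s}

end

open Pool.Agent.H948 Q70.Fp

lemma passage_eq (w : Sym2 (ℤ × ℤ) → ℝ) (v : ℤ × ℤ) : PassageTime w v = TT w 0 v := by
  unfold PassageTime TT
  congr 1
  ext s
  constructor
  · rintro ⟨n, p, h1, h2, h3, h4⟩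
    exact ⟨n, p, ⟨h1, h2, h3⟩, h4⟩
  · rintro ⟨n, p, ⟨h1, h2, h3⟩, h4⟩
    exact ⟨n, p, h1, h2, h3, h4⟩

lemma size_eq (v : ℤ × ℤ) : size v = (dd 0 v : ℝ) := by
  simp only [size, dd, Prod.fst_zero, Prod.snd_zero, sub_zero]
  push_cast [Nat.cast_natAbs]
  rfl

/-- the stretched exponential bound is impossible for small exponents -/
lemma no_Se {μ : ℝ × ℝ → ℝ} (h : Shape μ) {a : ℝ} (ha : a < 1 / 5) : ¬ Q69.FL.Se μ a := by
  intro hS
  set b : ℝ := max a (1 / 10) with hb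
  have hb0 : 0 < b := lt_max_of_lt_right (by norm_num)
  have hb5 : b < 1 / 5 := max_lt ha (by norm_num)
  have hS' := Q69.FL.Se_mono (le_max_left a (1 / 10)) hS
  obtain ⟨κ, c, C, hκ, hc, hC, hU⟩ := Q69.FL.unifL h hb0 hS'
  obtain ⟨K, hK, hE⟩ := exp_small hκ hc (show (0:ℝ) < 21 by norm_num)
  have F1 := pow_small (c := -21) (a := -20) (K := C * K) (by norm_num)
  obtain ⟨n, hn1, hn2, u, hu, hp⟩ := ((eventually_ge_atTop 1).and (F1.and (below h hb5))).exists
  have hn1' : (1:ℝ) ≤ n := by exact_mod_cast hn1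
  have e1 := hU n hn1 u hu
  have e2 := hE n hn1'
  have e3 : C * Real.exp (-(c * (n:ℝ) ^ κ)) ≤ C * (K * (n:ℝ) ^ (-(21:ℝ))) := by gcongr
  have e4 : (0:ℝ) < (n:ℝ) ^ (-(20:ℝ)) := by positivity
  have e5 : (n:ℝ) ^ (-(20:ℝ)) = (n:ℝ) ^ (-20:ℝ) := rfl
  have e6 : (n:ℝ) ^ (-(21:ℝ)) = (n:ℝ) ^ (-21:ℝ) := rfl
  rw [e6] at e3
  nlinarith

/-- neither is a polynomial bound with a large power -/
lemma no_Ll {μ : ℝ × ℝ → ℝ} (h : Shape μ) {a q : ℝ} (ha : a < 1 / 5) (hq : 3 * (1 - a) ≤ q) :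
    ¬ Q69.FL.Ll μ a q := by
  intro hL
  set b : ℝ := max ((a + 1 / 5) / 2) (1 / 10) with hb
  have hb0 : 0 < b := lt_max_of_lt_right (by norm_num)
  have hb5 : b < 1 / 5 := max_lt (by linarith) (by norm_num)
  have hab : a < b := lt_of_lt_of_le (by linarith) (le_max_left _ _)
  have hq0 : 0 < q := by linarith
  exact no_Se h (show (b + 1 / 5) / 2 < 1 / 5 by linarith)
    (Q69.FL.boostL h hb0 (by linarith) hq0 (by linarith) (Q69.FL.Ll_mono hab.le hL)
      (by linarith))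

/-- For independent exponential edge weights on the square lattice: (1) for every `a < 1 / 5` and all
large `n` some `v` with `|v| ≤ n` satisfies `P (T(0, v) < μ(v) - n ^ a) > n ^ (-20)`; (2) for
`0 < a < 1 / 5` the probability that the cluster at time `t` is not contained in
`(1 + t ^ (a - 1)) t 𝔸` is not `O(t ^ (-3 (1 - a)))`; (3) for `a < 1 / 5` the probability of
`T(0, v) < μ(v) - |v| ^ a` is not bounded by a multiple of `|v| ^ (-3 (1 - a))`; (4) for `κ < 5 / 4`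
and `c > 0` the bound `P (T(0, v) < (1 - θ) μ(v)) ≤ exp (-c θ ^ κ |v|)` fails for some `v` and
`θ ∈ (0, 1)`. -/
theorem result {Ω : Type} [MeasurableSpace Ω] (P : Measure Ω) [IsProbabilityMeasure P]
    (X : Sym2 (ℤ × ℤ) → Ω → ℝ) (μ : ℝ × ℝ → ℝ) (hM : Model P X μ) :
    (∀ a : ℝ, a < 1 / 5 → ∀ᶠ n : ℕ in atTop, ∃ v : ℤ × ℤ, size v ≤ n ∧
      (n : ℝ) ^ (-20 : ℝ) < fast P X v (mu μ v - (n : ℝ) ^ a)) ∧
    (∀ a : ℝ, 0 < a → a < 1 / 5 → ¬ Asymptotics.IsBigO atTop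
      (fun t : ℝ => leaveProb P X μ (t ^ (a - 1)) t) (fun t : ℝ => t ^ (-(3 * (1 - a))))) ∧
    (∀ a : ℝ, a < 1 / 5 → ∀ C : ℝ, ∃ v : ℤ × ℤ, v ≠ 0 ∧
      C * size v ^ (-(3 * (1 - a))) < fast P X v (mu μ v - size v ^ a)) ∧
    (∀ κ : ℝ, κ < 5 / 4 → ∀ c : ℝ, 0 < c → ∃ v : ℤ × ℤ, v ≠ 0 ∧ ∃ θ : ℝ, 0 < θ ∧ θ < 1 ∧
      Real.exp (-(c * θ ^ κ * size v)) < fast P X v ((1 - θ) * mu μ v)) := by
  have hW : Wts P X := ⟨hM.measurable, hM.independent, hM.exponential⟩
  have hS : Shape μ := hW.shape hM.homogeneous hM.continuous (by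
    intro z
    filter_upwards [hM.limit z] with ω hω
    simpa only [passage_eq] using hω)
  have efast : ∀ v s, fast P X v s = nu.real {w | TT (pw w) 0 v < s} := by
    intro v s
    have := hW.real v (measurableSet_Iio (a := s))
    unfold fast
    simp only [passage_eq]
    exact this
  have eleave : ∀ r t, leaveProb P X μ r t = (P (Q69.FL.Ou X μ ((1 + r) * t) t)).toReal := by
    intro r t
    unfold leaveProb Q69.FL.Ou Cluster
    simp only [passage_eq]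
    rfl
  have emu : ∀ v, mu μ v = mz μ v := fun v => rfl
  have part1 : ∀ a : ℝ, a < 1 / 5 → ∀ᶠ n : ℕ in atTop, ∃ v : ℤ × ℤ, size v ≤ n ∧
      (n : ℝ) ^ (-20 : ℝ) < fast P X v (mu μ v - (n : ℝ) ^ a) := by
    intro a ha
    filter_upwards [below hS ha] with n ⟨u, hu, hp⟩
    refine ⟨u, ?_, ?_⟩
    · rw [size_eq]; exact_mod_cast hu
    · rw [efast, emu]; exact hp
  refine ⟨part1, ?_, ?_, ?_⟩
  · intro a ha ha5 hO
    set ζ : ℝ := (1 / 5 - a) / 2 with hζ
    have hζ0 : 0 < ζ := by rw [hζ]; linarith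
    refine no_Ll hS (a := a + ζ) (q := 3 * (1 - a)) (by rw [hζ]; linarith) (by linarith)
      (Q69.FL.ll_of_outer hW hS ha hζ0 (by rw [hζ]; linarith) (by linarith) ?_)
    refine Asymptotics.IsBigO.trans ?_ hO
    refine Asymptotics.IsBigO.of_bound 1 ?_
    filter_upwards [eventually_gt_atTop 1] with t ht
    have t0 : 0 < t := by linarith
    rw [one_mul, Real.norm_of_nonneg ENNReal.toReal_nonneg, eleave,
      Real.norm_of_nonneg ENNReal.toReal_nonneg]
    refine ENNReal.toReal_mono (measure_ne_top P _) (measure_mono ?_)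
    intro ω hω hsub
    refine hω (Set.Subset.trans hsub ?_)
    have t1 : t ^ (a - 1) ≤ t ^ (a - 1 + ζ / 2) :=
      Real.rpow_le_rpow_of_exponent_le ht.le (by linarith)
    have t2 : 0 < t ^ (a - 1) := by positivity
    have t3 : 0 < t ^ (a - 1 + ζ / 2) := by positivity
    intro x hx
    rw [Q69.FL.mem_smul_iff hS (by positivity)] at hx ⊢
    have t4 : (1 + t ^ (a - 1)) * t ≤ (1 + t ^ (a - 1 + ζ / 2)) * t := by gcongr
    exact hx.trans t4
  · intro a ha C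
    by_contra hcon
    push Not at hcon
    refine no_Ll hS ha (le_refl (3 * (1 - a))) ⟨max C 1, lt_max_of_lt_right one_pos, fun v hv => ?_⟩
    have h1 := hcon v hv
    rw [efast, emu, size_eq] at h1
    refine h1.trans ?_
    gcongr
    exact le_max_left _ _
  · intro κ hκ c hc
    -- reduce to the case of an exponent at least one
    set k : ℝ := max κ 1 with hk
    have hk1 : 1 ≤ k := le_max_right _ _
    have hk5 : k < 5 / 4 := max_lt hκ (by norm_num)
    have hκk : κ ≤ k := le_max_left _ _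
    have hk0 : 0 < k := by linarith
    -- the exponent
    obtain ⟨a, ha0, ha5, hka⟩ : ∃ a : ℝ, 0 < a ∧ a < 1 / 5 ∧ k * (1 - a) < 1 := by
      refine ⟨(1 / 5 + (1 - 1 / k)) / 2, ?_, ?_, ?_⟩
      · have : 1 / k ≤ 1 := by rw [div_le_one hk0]; exact hk1
        linarith
      · have : 4 / 5 < 1 / k := by rw [lt_div_iff₀ hk0]; linarith
        linarith
      · have e1 : k * (1 - (1 / 5 + (1 - 1 / k)) / 2) = (k * (4 / 5) + 1) / 2 := by
          field_simp
          ring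
        rw [e1]
        linarith
    set ε : ℝ := 1 - k * (1 - a) with hε
    have hε0 : 0 < ε := by rw [hε]; linarith
    obtain ⟨K, hK, hE⟩ := exp_small hε0 (show 0 < c * 3 ^ (-k) by positivity)
      (show (0:ℝ) < 21 by norm_num)
    have F1 := pow_small (c := -21) (a := -20) (K := K) (by norm_num)
    obtain ⟨n, hn1, hn2, u, hu, hp⟩ := ((eventually_ge_atTop 1).and (F1.and (part1 a ha5))).exists
    have hn1' : (1:ℝ) ≤ n := by exact_mod_cast hn1
    have hn0 : (0:ℝ) < n := by linarith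
    -- the point is not too small
    have hpos : (n:ℝ) ^ a < mz μ u := by
      by_contra hno
      push Not at hno
      have e1 : {w : Ed → ℝ | TT (pw w) 0 u < mu μ u - (n:ℝ) ^ a} = ∅ := by
        ext w
        simp only [Set.mem_ofPred_eq, Set.mem_empty_iff_false, iff_false, not_lt]
        have := TT_nonneg (pw_nonneg w) 0 u
        rw [emu]
        linarith
      rw [efast, e1, measureReal_empty] at hp
      have : (0:ℝ) < (n:ℝ) ^ (-20:ℝ) := by positivity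
      linarith
    have hna : (0:ℝ) < (n:ℝ) ^ a := by positivity
    have hmz0 : 0 < mz μ u := by linarith
    have hup := mz_up hS u
    have hu0 : u ≠ 0 := by
      rintro rfl
      rw [mz_zero hS] at hmz0
      exact lt_irrefl _ hmz0
    have hd1 : (1:ℝ) ≤ dd 0 u := by exact_mod_cast dd_pos hu0
    rw [size_eq] at hu
    set θ : ℝ := (n:ℝ) ^ a / mz μ u with hθ
    have hθ0 : 0 < θ := by positivity
    have hθ1 : θ < 1 := by rw [hθ, div_lt_one hmz0]; exact hpos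
    refine ⟨u, hu0, θ, hθ0, hθ1, ?_⟩
    have e1 : (1 - θ) * mu μ u = mu μ u - (n:ℝ) ^ a := by
      rw [emu, hθ]; field_simp
    rw [e1]
    refine lt_of_le_of_lt ?_ hp
    -- the comparison
    have e2 : θ ^ k ≤ θ ^ κ := Real.rpow_le_rpow_of_exponent_ge hθ0 hθ1.le hκk
    have e3 : 3 ^ (-k) * (n:ℝ) ^ ε ≤ θ ^ k * dd 0 u := by
      have f1 : (n:ℝ) ^ a / (3 * dd 0 u) ≤ θ := by
        rw [hθ]; gcongr
      have f2 : ((n:ℝ) ^ a / (3 * dd 0 u)) ^ k ≤ θ ^ k :=
        Real.rpow_le_rpow (by positivity) f1 hk0.le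
      have f3 : ((n:ℝ) ^ a / (3 * dd 0 u)) ^ k * dd 0 u =
          3 ^ (-k) * ((n:ℝ) ^ (a * k) * (dd 0 u : ℝ) ^ (1 - k)) := by
        rw [Real.div_rpow hna.le (by positivity), Real.mul_rpow (by norm_num) (by positivity),
          ← Real.rpow_mul hn0.le, Real.rpow_sub (by linarith), Real.rpow_one,
          Real.rpow_neg (by norm_num)]
        field_simp
      have f4 : (n:ℝ) ^ (1 - k) ≤ (dd 0 u : ℝ) ^ (1 - k) :=
        Real.rpow_le_rpow_of_nonpos (by linarith) hu (by linarith)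
      have f5 : (n:ℝ) ^ ε = (n:ℝ) ^ (a * k) * (n:ℝ) ^ (1 - k) := by
        rw [← Real.rpow_add hn0, hε]; congr 1; ring
      calc 3 ^ (-k) * (n:ℝ) ^ ε = 3 ^ (-k) * ((n:ℝ) ^ (a * k) * (n:ℝ) ^ (1 - k)) := by rw [f5]
        _ ≤ 3 ^ (-k) * ((n:ℝ) ^ (a * k) * (dd 0 u : ℝ) ^ (1 - k)) := by gcongr
        _ = ((n:ℝ) ^ a / (3 * dd 0 u)) ^ k * dd 0 u := f3.symm
        _ ≤ θ ^ k * dd 0 u := by gcongr
    rw [size_eq]
    have e4 : Real.exp (-(c * θ ^ κ * dd 0 u)) ≤ Real.exp (-(c * 3 ^ (-k) * (n:ℝ) ^ ε)) := by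
      refine Real.exp_le_exp.2 (neg_le_neg ?_)
      calc c * 3 ^ (-k) * (n:ℝ) ^ ε = c * (3 ^ (-k) * (n:ℝ) ^ ε) := by ring
        _ ≤ c * (θ ^ k * dd 0 u) := by gcongr
        _ ≤ c * (θ ^ κ * dd 0 u) := by gcongr
        _ = _ := by ring
    refine e4.trans ((hE n hn1').trans ?_)
    have e5 : (n:ℝ) ^ (-(21:ℝ)) = (n:ℝ) ^ (-21:ℝ) := rfl
    rw [e5]
    have e6 : (0:ℝ) ≤ (n:ℝ) ^ (-20:ℝ) := by positivity
    linarith

end Pool.Agent.Results.MP_de94ef_pr.OuterOneFifth
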