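import Pool.Agent.H948.Items3

/-!
# First-passage percolation: the shape exponent and the symmetry of the cluster
-/

set_option autoImplicit false

open MeasureTheory ProbabilityTheory Filter
open scoped Pointwise

namespace Pool.Agent.Results.MP_de94ef_pr.SymmetricCluster

/-- The passage time from the origin to `v` for the edge weights `w`. -/
noncomputable def PassageTime (w : Sym2 (ℤ × ℤ) → ℝ) (v : ℤ × ℤ) : ℝ :=
  sInf {s : ℝ | ∃ n : ℕ, ∃ p : ℕ → ℤ × ℤ, p 0 = 0 ∧ p n = v ∧
    (∀ i < n, |(p (i + 1)).1 - (p i).1| + |(p (i + 1)).2 - (p i).2| = 1) ∧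
    s = ∑ i ∈ Finset.range n, w s(p i, p (i + 1))}

/-- The weights `X e` are independent exponential variables with parameter 1, and `μ` is the time
constant: a continuous function, homogeneous of degree 1, with `T(0, n z) / n → μ z` a.s. -/
structure Model {Ω : Type} [MeasurableSpace Ω] (P : Measure Ω) (X : Sym2 (ℤ × ℤ) → Ω → ℝ)
    (μ : ℝ × ℝ → ℝ) : Prop where
  measurable : ∀ e, Measurable (X e)
  independent : iIndepFun X P
  exponential : ∀ e, Measure.map (X e) P = expMeasure 1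
  homogeneous : ∀ (x : ℝ × ℝ) (c : ℝ), 0 ≤ c → μ (c • x) = c * μ x
  continuous : Continuous μ
  limit : ∀ z : ℤ × ℤ, ∀ᵐ ω ∂P,
    Tendsto (fun n : ℕ => PassageTime (fun e => X e ω) ((n : ℤ) • z) / (n : ℝ)) atTop
      (nhds (μ ((z.1 : ℝ), (z.2 : ℝ))))

/-- The distance `|u₁ - v₁| + |u₂ - v₂|` of two lattice points. -/
noncomputable def dist (u v : ℤ × ℤ) : ℝ := |(u.1 : ℝ) - (v.1 : ℝ)| + |(u.2 : ℝ) - (v.2 : ℝ)|

/-- The cluster: the lattice points with passage time at most `t`. -/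
def Cluster (w : Sym2 (ℤ × ℤ) → ℝ) (t : ℝ) : Set (ℤ × ℤ) := {v | PassageTime w v ≤ t}

/-- The first cells of the cluster: the points `v` for which fewer than `N` points have a passage
time smaller than that of `v`. -/
def FirstCells (w : Sym2 (ℤ × ℤ) → ℝ) (N : ℕ) : Set (ℤ × ℤ) :=
  {v | {u | PassageTime w u < PassageTime w v}.encard < N}

/-- The union of the closed unit squares centred at the points of `S`. -/
def Fatten (S : Set (ℤ × ℤ)) : Set (ℝ × ℝ) :=
  {x : ℝ × ℝ | ∃ v ∈ S, |x.1 - (v.1 : ℝ)| ≤ 1 / 2 ∧ |x.2 - (v.2 : ℝ)| ≤ 1 / 2}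

/-- The limit shape `𝔸`. -/
def LimitShape (μ : ℝ × ℝ → ℝ) : Set (ℝ × ℝ) := {x : ℝ × ℝ | μ x ≤ 1}

/-- The number `r` for which the dilate `r 𝔸` has area `N`. -/
noncomputable def radius (μ : ℝ × ℝ → ℝ) (N : ℕ) : ℝ :=
  Real.sqrt (N / (volume (LimitShape μ)).toReal)

section

variable {Ω : Type} [MeasurableSpace Ω] (P : Measure Ω) (X : Sym2 (ℤ × ℤ) → Ω → ℝ)
  (μ : ℝ × ℝ → ℝ)

/-- The probability that the fattened cluster is not contained in `(1 + r) t 𝔸`. -/
noncomputable def leaveProb (r t : ℝ) : ℝ :=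
  P.real {ω | ¬ (Fatten (Cluster (fun e => X e ω) t) ⊆ ((1 + r) * t) • LimitShape μ)}

/-- The probability that the fattened cluster misses a part of `(1 - r) t 𝔸`. -/
noncomputable def missProb (r t : ℝ) : ℝ :=
  P.real {ω | ¬ (((1 - r) * t) • LimitShape μ ⊆ Fatten (Cluster (fun e => X e ω) t))}

/-- The probability that the fattened cluster at time `t` does not lie between `(R - s) 𝔸` and
`(R + s) 𝔸` for any real number `R > s`; here `R` may depend on the cluster. -/
noncomputable def dilateProb (s t : ℝ) : ℝ :=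
  P.real {ω | ¬ ∃ R : ℝ, s < R ∧ (R - s) • LimitShape μ ⊆ Fatten (Cluster (fun e => X e ω) t) ∧
    Fatten (Cluster (fun e => X e ω) t) ⊆ (R + s) • LimitShape μ}

/-- The probability that the first `N` cells do not lie between `(1 - r) R 𝔸` and `(1 + r) R 𝔸`,
where `R` is the number for which `R 𝔸` has area `N`. -/
noncomputable def cellProb (r : ℝ) (N : ℕ) : ℝ :=
  P.real {ω | ¬ (((1 - r) * radius μ N) • LimitShape μ ⊆ Fatten (FirstCells (fun e => X e ω) N) ∧
    Fatten (FirstCells (fun e => X e ω) N) ⊆ ((1 + r) * radius μ N) • LimitShape μ)}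

/-- The probability that the cluster `A` at time `t` is not symmetric up to the distance `s`: there
is `v ∈ A` such that all `u ∈ A` have distance more than `s` from `-v`. -/
noncomputable def asymProb (s t : ℝ) : ℝ :=
  P.real {ω | ∃ v ∈ Cluster (fun e => X e ω) t, ∀ u ∈ Cluster (fun e => X e ω) t, s < dist u (-v)}

/-- The question at the exponent `b`; the exponent `1 / 3` gives the question itself. -/
def Question (b : ℝ) : Prop := ∀ ζ : ℝ, 0 < ζ → ζ < 1 - b → ∀ q : ℝ, 0 < q →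
  Asymptotics.IsBigO atTop (fun t : ℝ => leaveProb P X μ (t ^ (b - 1 + ζ)) t)
    (fun t : ℝ => t ^ (-q)) ∧
  Asymptotics.IsBigO atTop (fun t : ℝ => missProb P X μ (t ^ (b - 1 + ζ)) t)
    (fun t : ℝ => t ^ (-q))

/-- The cluster is `t ^ (b + ζ)`-close to a random dilate, except with rapidly small probability. -/
def DilateRapid (b : ℝ) : Prop := ∀ ζ : ℝ, 0 < ζ → ζ < 1 - b → ∀ q : ℝ, 0 < q →
  Asymptotics.IsBigO atTop (fun t : ℝ => dilateProb P X μ (t ^ (b + ζ)) t) (fun t : ℝ => t ^ (-q))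

/-- The same with probability `O(t ^ (-(4 - 3 b)))`. -/
def DilateRate (b : ℝ) : Prop := ∀ ζ : ℝ, 0 < ζ → ζ < 1 - b →
  Asymptotics.IsBigO atTop (fun t : ℝ => dilateProb P X μ (t ^ (b + ζ)) t)
    (fun t : ℝ => t ^ (-(4 - 3 * b)))

/-- The first `N` cells are close to the dilate of area `N` up to a factor
`1 ± N ^ ((b - 1) / 2 + ζ)`, except with rapidly small probability. -/
def CellsRapid (b : ℝ) : Prop := ∀ ζ : ℝ, 0 < ζ → ζ < (1 - b) / 2 → ∀ q : ℝ, 0 < q →
  Asymptotics.IsBigO atTop (fun N : ℕ => cellProb P X μ ((N : ℝ) ^ ((b - 1) / 2 + ζ)) N)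
    (fun N : ℕ => (N : ℝ) ^ (-q))

/-- The same with probability `O(N ^ (-(3 - 3 b / 2)))`. -/
def CellsRate (b : ℝ) : Prop := ∀ ζ : ℝ, 0 < ζ → ζ < (1 - b) / 2 →
  Asymptotics.IsBigO atTop (fun N : ℕ => cellProb P X μ ((N : ℝ) ^ ((b - 1) / 2 + ζ)) N)
    (fun N : ℕ => (N : ℝ) ^ (-(3 - 3 * b / 2)))

/-- The cluster is symmetric up to the distance `t ^ (b + ζ)`, except with rapidly small
probability. -/
def SymmetricRapid (b : ℝ) : Prop := ∀ ζ : ℝ, 0 < ζ → ζ < 1 - b → ∀ q : ℝ, 0 < q →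
  Asymptotics.IsBigO atTop (fun t : ℝ => asymProb P X (t ^ (b + ζ)) t) (fun t : ℝ => t ^ (-q))

/-- The same with probability `O(t ^ (-(4 - 3 b)))`. -/
def SymmetricRate (b : ℝ) : Prop := ∀ ζ : ℝ, 0 < ζ → ζ < 1 - b →
  Asymptotics.IsBigO atTop (fun t : ℝ => asymProb P X (t ^ (b + ζ)) t)
    (fun t : ℝ => t ^ (-(4 - 3 * b)))

/-- The difference of the passage times to two opposite points is more than `|v| ^ (b + ζ)` with
probability at most `C |v| ^ (-3 (1 - b) + ζ)`. -/
def OppositeRate (b : ℝ) : Prop := ∀ ζ : ℝ, 0 < ζ → ∃ C : ℝ, ∀ v : ℤ × ℤ, v ≠ 0 →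
  P.real {ω | dist 0 v ^ (b + ζ) <
    |PassageTime (fun e => X e ω) v - PassageTime (fun e => X e ω) (-v)|} ≤
    C * dist 0 v ^ (-(3 * (1 - b)) + ζ)

end

open Pool.Agent.H948 Q70.Fp

lemma passage_eq (w : Sym2 (ℤ × ℤ) → ℝ) (v : ℤ × ℤ) : PassageTime w v = TT w 0 v := by
  unfold PassageTime TT
  congr 1
  ext s
  constructor
  · rintro ⟨n, p, h1, h2, h3, h4⟩
    exact ⟨n, p, ⟨h1, h2, h3⟩, h4⟩
  · rintro ⟨n, p, ⟨h1, h2, h3⟩, h4⟩
    exact ⟨n, p, h1, h2, h3, h4⟩

lemma dist_eq (u v : ℤ × ℤ) : dist u v = (dd u v : ℝ) := by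
  simp only [dist, dd]
  push_cast [Nat.cast_natAbs]
  rw [abs_sub_comm, abs_sub_comm (u.2 : ℝ)]

/-- For independent exponential edge weights on the square lattice and every exponent `b` between `0`
and `1` the following are equivalent. -/
theorem result {Ω : Type} [MeasurableSpace Ω] (P : Measure Ω) [IsProbabilityMeasure P]
    (X : Sym2 (ℤ × ℤ) → Ω → ℝ) (μ : ℝ × ℝ → ℝ) (hM : Model P X μ) (b : ℝ) (hb : 0 < b)
    (hb1 : b < 1) :
    List.TFAE [
      Question P X μ b,
      DilateRapid P X μ b,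
      DilateRate P X μ b,
      CellsRapid P X μ b,
      CellsRate P X μ b,
      SymmetricRapid P X b,
      SymmetricRate P X b,
      OppositeRate P X b] := by
  have hW : Wts P X := ⟨hM.measurable, hM.independent, hM.exponential⟩
  have hS : Shape μ := hW.shape hM.homogeneous hM.continuous (by
    intro z
    filter_upwards [hM.limit z] with ω hω
    simpa only [passage_eq] using hω)
  have ecl : ∀ (ω : Ω) (t : ℝ), Cluster (fun e => X e ω) t = {v | TX X ω v ≤ t} := by
    intro ω t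
    ext v
    show PassageTime _ v ≤ t ↔ TT _ 0 v ≤ t
    rw [passage_eq]
  have efc : ∀ (ω : Ω) (N : ℕ), FirstCells (fun e => X e ω) N = Cells (TX X ω) N := by
    intro ω N
    unfold FirstCells Cells TX
    simp only [passage_eq]
  have eout : ∀ r t, leaveProb P X μ r t = P.real {ω | pOut μ (TX X ω) ((1 + r) * t) t} := by
    intro r t
    unfold leaveProb pOut
    simp only [ecl]
    rfl
  have einn : ∀ r t, missProb P X μ r t = P.real {ω | pInn μ (TX X ω) ((1 - r) * t) t} := by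
    intro r t
    unfold missProb pInn
    simp only [ecl]
    rfl
  have edil : ∀ s t, dilateProb P X μ s t = P.real {ω | pDil μ (TX X ω) s t} := by
    intro s t
    unfold dilateProb pDil
    simp only [ecl]
    rfl
  have ecell : ∀ r N, cellProb P X μ r N = P.real {ω | pCell μ (TX X ω) r N} := by
    intro r N
    unfold cellProb pCell
    simp only [efc]
    rfl
  have esym : ∀ s t, asymProb P X s t = P.real {ω | pSym (TX X ω) s t} := by
    intro s t
    unfold asymProb pSym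
    congr 1
    ext ω
    simp only [ecl, dist_eq, Set.mem_ofPred_eq]
  have q1 : Question P X μ b ↔ I1 P X μ b := by
    unfold Question I1
    simp only [eout, einn]
  have q2 : DilateRapid P X μ b ↔ I2 P X μ b := by
    unfold DilateRapid I2
    simp only [edil]
  have q3 : DilateRate P X μ b ↔ I3 P X μ b := by
    unfold DilateRate I3
    simp only [edil]
  have q4 : CellsRapid P X μ b ↔ I4 P X μ b := by
    unfold CellsRapid I4
    simp only [ecell]
  have q5 : CellsRate P X μ b ↔ I5 P X μ b := by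
    unfold CellsRate I5
    simp only [ecell]
  have q6 : SymmetricRapid P X b ↔ I6 P X b := by
    unfold SymmetricRapid I6
    simp only [esym]
  have q7 : SymmetricRate P X b ↔ I7 P X b := by
    unfold SymmetricRate I7
    simp only [esym]
  have q8 : OppositeRate P X b ↔ I8 P X b := by
    unfold OppositeRate I8 TX
    simp only [passage_eq, dist_eq]
  rw [q1, q2, q3, q4, q5, q6, q7, q8]
  tfae_have 1 → 2 := I2_of_I1
  tfae_have 2 → 3 := I3_of_I2 hb1
  tfae_have 1 → 4 := I4_of_I1 hS hb hb1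
  tfae_have 4 → 5 := I5_of_I4 hb1
  tfae_have 5 → 3 := I3_of_I5 hW hS hb hb1
  tfae_have 1 → 6 := I6_of_I1 hS hb
  tfae_have 6 → 7 := I7_of_I6 hb1
  tfae_have 3 → 7 := I7_of_I3 hS hb
  tfae_have 7 → 8 := fun h => I8_of_diff hW (diff_of_I7 hW hb hb1 h)
  tfae_have 8 → 1 := fun h => I1_of_both hW hS hb (both_of_diff hS hb hb1 (diff_of_I8 hW h))
  tfae_finish

end Pool.Agent.Results.MP_de94ef_pr.SymmetricCluster
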