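import Pool.Agent.H948.OuterStep
import Pool.Agent.H948.Items3
import Pool.Agent.H948.Mean
import Pool.Agent.H948.Doubling

/-!
# First-passage percolation: the whole question is a statement about the means
-/

set_option autoImplicit false

open MeasureTheory ProbabilityTheory Filter
open scoped Pointwise

namespace Pool.Agent.Results.MP_de94ef_pr.TwoSided

/-- The passage time from the origin to `v` for the edge weights `w`. -/
noncomputable def PassageTime (w : Sym2 (ℤ × ℤ) → ℝ) (v : ℤ × ℤ) : ℝ :=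
  sInf {s : ℝ | ∃ n : ℕ, ∃ p : ℕ → ℤ × ℤ, p 0 = 0 ∧ p n = v ∧
    (∀ i < n, |(p (i + 1)).1 - (p i).1| + |(p (i + 1)).2 - (p i).2| = 1) ∧
    s = ∑ i ∈ Finset.range n, w s(p i, p (i + 1))}

/-- The weights `X e` are independent exponential variables with parameter 1, and `μ` is the time
constant: a continuous function, homogeneous of degree 1, with `T(0, n z) / n → μ z` a.s. -/
structure Model {Ω : Type} [MeasurableSpace Ω] (P : Measure Ω) (X : Sym2 (ℤ × ℤ) → Ω → ℝ)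
    (μ : ℝ × ℝ → ℝ) : Prop where
  measurable : ∀ e, Measurable (X e)
  independent : iIndepFun X P
  exponential : ∀ e, Measure.map (X e) P = expMeasure 1
  homogeneous : ∀ (x : ℝ × ℝ) (c : ℝ), 0 ≤ c → μ (c • x) = c * μ x
  continuous : Continuous μ
  limit : ∀ z : ℤ × ℤ, ∀ᵐ ω ∂P,
    Tendsto (fun n : ℕ => PassageTime (fun e => X e ω) ((n : ℤ) • z) / (n : ℝ)) atTop
      (nhds (μ ((z.1 : ℝ), (z.2 : ℝ))))

/-- The norm `|v₁| + |v₂|` of a lattice point. -/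
noncomputable def size (v : ℤ × ℤ) : ℝ := |(v.1 : ℝ)| + |(v.2 : ℝ)|

/-- The fattened cluster at time `t`. -/
def Cluster (w : Sym2 (ℤ × ℤ) → ℝ) (t : ℝ) : Set (ℝ × ℝ) :=
  {x : ℝ × ℝ | ∃ v : ℤ × ℤ, PassageTime w v ≤ t ∧
    |x.1 - (v.1 : ℝ)| ≤ 1 / 2 ∧ |x.2 - (v.2 : ℝ)| ≤ 1 / 2}

/-- The limit shape `𝔸`. -/
def LimitShape (μ : ℝ × ℝ → ℝ) : Set (ℝ × ℝ) := {x : ℝ × ℝ | μ x ≤ 1}

section

variable {Ω : Type} [MeasurableSpace Ω] (P : Measure Ω) (X : Sym2 (ℤ × ℤ) → Ω → ℝ)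
  (μ : ℝ × ℝ → ℝ)

/-- The probability that the fattened cluster is not contained in `(1 + r) t 𝔸`. -/
noncomputable def leaveProb (r t : ℝ) : ℝ :=
  P.real {ω | ¬ (Cluster (fun e => X e ω) t ⊆ ((1 + r) * t) • LimitShape μ)}

/-- The probability that the fattened cluster misses a part of `(1 - r) t 𝔸`. -/
noncomputable def missProb (r t : ℝ) : ℝ :=
  P.real {ω | ¬ (((1 - r) * t) • LimitShape μ ⊆ Cluster (fun e => X e ω) t)}

/-- The expected passage time from the origin to `v`. -/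
noncomputable def mean (v : ℤ × ℤ) : ℝ := ∫ ω, PassageTime (fun e => X e ω) v ∂P

/-- The question at the exponent `b`; the exponent `1 / 3` gives the question itself. -/
def Question (b : ℝ) : Prop := ∀ ζ : ℝ, 0 < ζ → ζ < 1 - b → ∀ q : ℝ, 0 < q →
  Asymptotics.IsBigO atTop (fun t : ℝ => leaveProb P X μ (t ^ (b - 1 + ζ)) t)
    (fun t : ℝ => t ^ (-q)) ∧
  Asymptotics.IsBigO atTop (fun t : ℝ => missProb P X μ (t ^ (b - 1 + ζ)) t)
    (fun t : ℝ => t ^ (-q))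

/-- The second half of the question at the exponent `b`. -/
def InnerHalf (b : ℝ) : Prop := ∀ ζ : ℝ, 0 < ζ → ζ < 1 - b → ∀ q : ℝ, 0 < q →
  Asymptotics.IsBigO atTop (fun t : ℝ => missProb P X μ (t ^ (b - 1 + ζ)) t)
    (fun t : ℝ => t ^ (-q))

/-- The second half with an arbitrarily slow polynomial rate. -/
def InnerRate (b : ℝ) : Prop := ∀ ζ : ℝ, 0 < ζ → ζ < 1 - b → ∃ q : ℝ, 0 < q ∧
  Asymptotics.IsBigO atTop (fun t : ℝ => missProb P X μ (t ^ (b - 1 + ζ)) t)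
    (fun t : ℝ => t ^ (-q))

/-- The expected passage time exceeds the time constant by at most `C |v| ^ (b + ζ)`. -/
def MeanBound (b : ℝ) : Prop := ∀ ζ : ℝ, 0 < ζ → ∃ C : ℝ, ∀ v : ℤ × ℤ, v ≠ 0 →
  mean P X v ≤ μ ((v.1 : ℝ), (v.2 : ℝ)) + C * size v ^ (b + ζ)

/-- `2 E T(0, v) - E T(0, 2 v)` is at most `C |v| ^ (b + ζ)`. -/
def DoublingBound (b : ℝ) : Prop := ∀ ζ : ℝ, 0 < ζ → ∃ C : ℝ, ∀ v : ℤ × ℤ, v ≠ 0 →
  2 * mean P X v - mean P X ((2 : ℤ) • v) ≤ C * size v ^ (b + ζ)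

/-- Stretched exponential bounds for the probability of `|T(0, v) - μ(v)| > |v| ^ (b + ζ)`. -/
def Tails (b : ℝ) : Prop := ∀ ζ : ℝ, 0 < ζ → ∃ κ c C : ℝ, 0 < κ ∧ 0 < c ∧ ∀ v : ℤ × ℤ, v ≠ 0 →
  P.real {ω | size v ^ (b + ζ) <
    |PassageTime (fun e => X e ω) v - μ ((v.1 : ℝ), (v.2 : ℝ))|} ≤
    C * Real.exp (-(c * size v ^ κ))

end

open Pool.Agent.H948 Q70.Fp
open Q69.FM (hm)

lemma passage_eq (w : Sym2 (ℤ × ℤ) → ℝ) (v : ℤ × ℤ) : PassageTime w v = TT w 0 v := by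
  unfold PassageTime TT
  congr 1
  ext s
  constructor
  · rintro ⟨n, p, h1, h2, h3, h4⟩
    exact ⟨n, p, ⟨h1, h2, h3⟩, h4⟩
  · rintro ⟨n, p, ⟨h1, h2, h3⟩, h4⟩
    exact ⟨n, p, h1, h2, h3, h4⟩

lemma size_eq (v : ℤ × ℤ) : size v = (dd 0 v : ℝ) := by
  simp only [size, dd, Prod.fst_zero, Prod.snd_zero, sub_zero]
  push_cast [Nat.cast_natAbs]
  rfl

/-- both tails together -/
lemma tails_of {μ : ℝ × ℝ → ℝ} {a : ℝ} (h1 : Q69.FL.Se μ a) (h2 : SeU μ a) :
    ∃ κ c C : ℝ, 0 < κ ∧ 0 < c ∧ ∀ v : ℤ × ℤ, v ≠ 0 →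
      nu.real {w | (dd 0 v : ℝ) ^ a < |TT (pw w) 0 v - mz μ v|} ≤
        C * Real.exp (-(c * (dd 0 v : ℝ) ^ κ)) := by
  obtain ⟨κ1, c1, C1, hκ1, hc1, hC1, h1⟩ := h1
  obtain ⟨κ2, c2, C2, hκ2, hc2, hC2, h2⟩ := h2
  refine ⟨min κ1 κ2, min c1 c2, C1 + C2, lt_min hκ1 hκ2, lt_min hc1 hc2, fun v hv => ?_⟩
  have hn : (1:ℝ) ≤ dd 0 v := by exact_mod_cast dd_pos hv
  have hsub : {w : Ed → ℝ | (dd 0 v : ℝ) ^ a < |TT (pw w) 0 v - mz μ v|} ⊆
      {w | TT (pw w) 0 v < mz μ v - (dd 0 v : ℝ) ^ a} ∪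
      {w | mz μ v + (dd 0 v : ℝ) ^ a < TT (pw w) 0 v} := by
    intro w hw
    have hw' : (dd 0 v : ℝ) ^ a < |TT (pw w) 0 v - mz μ v| := hw
    rcases lt_abs.1 hw' with hh | hh
    · right
      show mz μ v + (dd 0 v : ℝ) ^ a < TT (pw w) 0 v
      linarith
    · left
      show TT (pw w) 0 v < mz μ v - (dd 0 v : ℝ) ^ a
      linarith
  have g : ∀ κ c : ℝ, min κ1 κ2 ≤ κ → min c1 c2 ≤ c → 0 < c →
      Real.exp (-(c * (dd 0 v : ℝ) ^ κ)) ≤
        Real.exp (-(min c1 c2 * (dd 0 v : ℝ) ^ (min κ1 κ2))) := by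
    intro κ c hκ hc hc0
    refine Real.exp_le_exp.2 (neg_le_neg ?_)
    have e1 := Real.rpow_le_rpow_of_exponent_le hn hκ
    have e2 : (0:ℝ) ≤ (dd 0 v : ℝ) ^ (min κ1 κ2) := by positivity
    nlinarith
  calc nu.real {w : Ed → ℝ | (dd 0 v : ℝ) ^ a < |TT (pw w) 0 v - mz μ v|}
      ≤ nu.real {w | TT (pw w) 0 v < mz μ v - (dd 0 v : ℝ) ^ a} +
        nu.real {w | mz μ v + (dd 0 v : ℝ) ^ a < TT (pw w) 0 v} :=
        (measureReal_mono hsub (measure_ne_top _ _)).trans (measureReal_union_le _ _)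
    _ ≤ C1 * Real.exp (-(c1 * (dd 0 v : ℝ) ^ κ1)) + C2 * Real.exp (-(c2 * (dd 0 v : ℝ) ^ κ2)) :=
        add_le_add (h1 v hv) (h2 v hv)
    _ ≤ C1 * Real.exp (-(min c1 c2 * (dd 0 v : ℝ) ^ (min κ1 κ2))) +
        C2 * Real.exp (-(min c1 c2 * (dd 0 v : ℝ) ^ (min κ1 κ2))) := by
        exact add_le_add
          (mul_le_mul_of_nonneg_left (g κ1 c1 (min_le_left _ _) (min_le_left _ _) hc1) hC1.le)
          (mul_le_mul_of_nonneg_left (g κ2 c2 (min_le_right _ _) (min_le_right _ _) hc2) hC2.le)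
    _ = _ := by ring

/-- For independent exponential edge weights on the square lattice and every exponent `b` between `0`
and `1`, the following are equivalent: the question at the exponent `b`; its second half alone; its
second half with any polynomial rate; `E T(0, v) ≤ μ(v) + C |v| ^ (b + ζ)`;
`2 E T(0, v) - E T(0, 2 v) ≤ C |v| ^ (b + ζ)`; stretched exponential bounds for the probability that
`|T(0, v) - μ(v)| > |v| ^ (b + ζ)`. -/
theorem result {Ω : Type} [MeasurableSpace Ω] (P : Measure Ω) [IsProbabilityMeasure P]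
    (X : Sym2 (ℤ × ℤ) → Ω → ℝ) (μ : ℝ × ℝ → ℝ) (hM : Model P X μ) (b : ℝ) (hb : 0 < b)
    (hb1 : b < 1) :
    List.TFAE [Question P X μ b, InnerHalf P X μ b, InnerRate P X μ b, MeanBound P X μ b,
      DoublingBound P X b, Tails P X μ b] := by
  have hW : Wts P X := ⟨hM.measurable, hM.independent, hM.exponential⟩
  have hS : Shape μ := hW.shape hM.homogeneous hM.continuous (by
    intro z
    filter_upwards [hM.limit z] with ω hω
    simpa only [passage_eq] using hω)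
  have emean : ∀ v, mean P X v = hm v := by
    intro v
    unfold mean
    simp only [passage_eq]
    exact hW.int v (g := fun x => x) measurable_id
  have ecl : ∀ (ω : Ω) (t : ℝ), Cluster (fun e => X e ω) t =
      {x : ℝ × ℝ | ∃ v : ℤ × ℤ, TX X ω v ≤ t ∧
        |x.1 - (v.1 : ℝ)| ≤ 1 / 2 ∧ |x.2 - (v.2 : ℝ)| ≤ 1 / 2} := by
    intro ω t
    unfold Cluster TX
    simp only [passage_eq]
  have eout : ∀ r t, leaveProb P X μ r t = P.real {ω | pOut μ (TX X ω) ((1 + r) * t) t} := by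
    intro r t
    unfold leaveProb pOut
    simp only [ecl]
    rfl
  have einn : ∀ r t, missProb P X μ r t = P.real {ω | pInn μ (TX X ω) ((1 - r) * t) t} := by
    intro r t
    unfold missProb pInn
    simp only [ecl]
    rfl
  have einn' : ∀ r t, missProb P X μ r t = (P (Fl X μ ((1 - r) * t) t)).toReal := by
    intro r t
    unfold missProb Fl Cluster LimitShape
    simp only [passage_eq]
    rfl
  have q1 : Question P X μ b ↔ I1 P X μ b := by
    unfold Question I1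
    simp only [eout, einn]
  have q3 : InnerRate P X μ b ↔ ∀ ζ : ℝ, 0 < ζ → ζ < 1 - b → ∃ δ : ℝ, 0 < δ ∧
      Asymptotics.IsBigO atTop (fun t : ℝ => (P (Fl X μ ((1 - t ^ (b - 1 + ζ)) * t) t)).toReal)
        (fun t : ℝ => t ^ (-δ)) := by
    unfold InnerRate
    simp only [einn']
  have q4 : MeanBound P X μ b ↔ ∀ ζ : ℝ, 0 < ζ → ∃ C : ℝ, ∀ v : ℤ × ℤ, v ≠ 0 →
      hm v ≤ mz μ v + C * (dd 0 v : ℝ) ^ (b + ζ) := by
    unfold MeanBound
    simp only [emean, size_eq]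
    rfl
  have q5 : DoublingBound P X b ↔ ∀ ζ : ℝ, 0 < ζ → ∃ C : ℝ, ∀ v : ℤ × ℤ, v ≠ 0 →
      2 * hm v - hm ((2:ℤ) • v) ≤ C * (dd 0 v : ℝ) ^ (b + ζ) := by
    unfold DoublingBound
    simp only [emean, size_eq]
  have q6 : Tails P X μ b ↔ ∀ ζ : ℝ, 0 < ζ → ∃ κ c C : ℝ, 0 < κ ∧ 0 < c ∧ ∀ v : ℤ × ℤ, v ≠ 0 →
      nu.real {w | (dd 0 v : ℝ) ^ (b + ζ) < |TT (pw w) 0 v - mz μ v|} ≤
        C * Real.exp (-(c * (dd 0 v : ℝ) ^ κ)) := by
    have e : ∀ (ζ : ℝ) (v : ℤ × ℤ), P.real {ω | size v ^ (b + ζ) <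
        |PassageTime (fun e => X e ω) v - μ ((v.1 : ℝ), (v.2 : ℝ))|} =
        nu.real {w | (dd 0 v : ℝ) ^ (b + ζ) < |TT (pw w) 0 v - mz μ v|} := by
      intro ζ v
      simp only [passage_eq, size_eq]
      refine (transfer_eq hW (fun T => (dd 0 v : ℝ) ^ (b + ζ) < |T v - mz μ v|) ?_).symm
      exact measurableSet_lt measurable_const
        (continuous_abs.measurable.comp ((measurable_TT 0 v).sub measurable_const))
    unfold Tails
    simp only [e]
    simp only [size_eq]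
  have hHH : InnerRate P X μ b → ∀ a, b < a → HH μ a := by
    intro h3 a ha
    rw [q3] at h3
    exact boost hS hb hb1 (tl_of_inner hW hS hb hb1 h3) ha
  have hQ : (∀ a, b < a → HH μ a) → Question P X μ b := by
    intro hH
    rw [q1]
    exact I1_of_both hW hS hb ⟨lower_of_upper hS hb hH, hH⟩
  tfae_have 1 → 2 := fun h ζ hζ hζ1 q hq => (h ζ hζ hζ1 q hq).2
  tfae_have 2 → 3 := fun h ζ hζ hζ1 => ⟨1, one_pos, h ζ hζ hζ1 1 one_pos⟩
  tfae_have 3 → 1 := fun h => hQ (hHH h)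
  tfae_have 3 → 4 := by
    intro h3
    rw [q4]
    intro ζ hζ
    have hH : HH μ (b + ζ) := hHH h3 _ (by linarith)
    obtain ⟨C3, hC3, h3⟩ := pos_moment hS (a := b + ζ) (by linarith) hH (p := 1) one_pos
    refine ⟨C3, fun u hu => ?_⟩
    obtain ⟨i1, i2⟩ := h3 u hu
    have e1 : hm u - mz μ u ≤ ∫ w, max (TT (pw w) 0 u - mz μ u) 0 ^ (1:ℝ) ∂nu := by
      have e2 : hm u - mz μ u = ∫ w, (TT (pw w) 0 u - mz μ u) ∂nu := by
        rw [integral_sub (integrable_TT _ _) (integrable_const _)]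
        simp [hm]
      rw [e2]
      refine integral_mono ((integrable_TT _ _).sub (integrable_const _)) i1 fun w => ?_
      show TT (pw w) 0 u - mz μ u ≤ max (TT (pw w) 0 u - mz μ u) 0 ^ (1:ℝ)
      rw [Real.rpow_one]
      exact le_max_left _ _
    rw [mul_one] at i2
    linarith
  tfae_have 4 → 5 := by
    intro h2
    rw [q4] at h2
    rw [q5]
    intro ζ hζ
    obtain ⟨C, hC⟩ := h2 ζ hζ
    refine ⟨2 * C, fun v hv => ?_⟩
    have e1 := hC v hv
    have e2 := mz_le_mean hS ((2:ℤ) • v)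
    have e3 := mz_smul hS 2 v
    have e4 : mz μ ((2:ℤ) • v) = 2 * mz μ v := by exact_mod_cast e3
    rw [e4] at e2
    have e5 : 2 * mz μ v ≤ hm ((2:ℤ) • v) := e2
    linarith
  tfae_have 5 → 1 := by
    intro h5
    rw [q5] at h5
    exact hQ fun a ha => mean_to_inner hS hb (Pool.Agent.H948.mean_of_doubling hS hb hb1 h5) ha
  tfae_have 3 → 6 := by
    intro h3
    rw [q6]
    intro ζ hζ
    exact tails_of (lower_of_upper hS hb (hHH h3) _ (by linarith))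
      (boostU hS hb hb1 (hHH h3) (by linarith))
  tfae_have 6 → 1 := by
    intro h6
    rw [q6] at h6
    refine hQ fun a ha => ?_
    obtain ⟨κ, c, C, hκ, hc, h6⟩ := h6 (a - b) (by linarith)
    intro q hq
    obtain ⟨K, hK, hE⟩ := exp_small hκ hc hq
    refine ⟨max C 1 * K, by positivity, fun v hv => ?_⟩
    have hn : (1:ℝ) ≤ dd 0 v := by exact_mod_cast dd_pos hv
    have e1 := h6 v hv
    have e2 := hE _ hn
    rw [show b + (a - b) = a by ring] at e1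
    refine (measureReal_mono ?_ (measure_ne_top _ _)).trans (e1.trans ?_)
    · intro w hw
      have hw' : mz μ v + (dd 0 v : ℝ) ^ a < TT (pw w) 0 v := hw
      show (dd 0 v : ℝ) ^ a < |TT (pw w) 0 v - mz μ v|
      exact lt_of_lt_of_le (by linarith) (le_abs_self _)
    · calc C * Real.exp (-(c * (dd 0 v : ℝ) ^ κ)) ≤ max C 1 * Real.exp (-(c * (dd 0 v : ℝ) ^ κ)) := by
            gcongr
            exact le_max_left _ _
        _ ≤ max C 1 * (K * (dd 0 v : ℝ) ^ (-q)) := by gcongr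
        _ = _ := by ring
  tfae_finish

end Pool.Agent.Results.MP_de94ef_pr.TwoSided
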